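import Mathlib

/-!
# Products of two sequential spaces that are `k_R`-spaces (MP_a29c66_gt)

We answer Q1 in the negative: there are a first countable (hence sequential) space `X` and a
countable Fréchet–Urysohn (hence sequential) space `Y` such that `X × Y` is a `k_R`-space but not a
`k`-space.

`X` is the metric fan of countably many copies of a Mrówka space `Ψ(𝒜)` with `𝒜` a maximal almost
disjoint family: the neighbourhoods of the extra point contain almost all copies.  `Y` is the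
countable sequential fan.
-/

set_option autoImplicit false

open Set Filter Topology

namespace Pool.Agent.Results.MP_a29c66_gt.NotKSpace

/-- `Z` is a `k`-space: `F` is closed whenever `F ∩ K` is closed in `K` for all compact `K`. -/
def IsKSpace (Z : Type*) [TopologicalSpace Z] : Prop :=
  ∀ F : Set Z, (∀ K : Set Z, IsCompact K → IsClosed ((↑) ⁻¹' F : Set K)) → IsClosed F

/-- `Z` is a `k_R`-space: `Z` is Tychonoff and every real function on `Z` whose restriction to every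
compact subspace is continuous is itself continuous. -/
def IsKRSpace (Z : Type*) [TopologicalSpace Z] : Prop :=
  T35Space Z ∧ ∀ f : Z → ℝ, (∀ K : Set Z, IsCompact K → Continuous (fun z : K => f z)) →
    Continuous f

/-! ### Maximal almost disjoint families -/

/-- Almost disjoint families of infinite subsets of `ℕ`. -/
def AD (𝒜 : Set (Set ℕ)) : Prop :=
  (∀ A ∈ 𝒜, A.Infinite) ∧ ∀ A ∈ 𝒜, ∀ B ∈ 𝒜, A ≠ B → (A ∩ B).Finite

/-- Infinite maximal almost disjoint families exist. -/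
lemma exists_mad : ∃ 𝒜 : Set (Set ℕ), AD 𝒜 ∧ 𝒜.Infinite ∧
    ∀ S : Set ℕ, S.Infinite → ∃ A ∈ 𝒜, (A ∩ S).Infinite := by
  let P : ℕ → Set ℕ := fun k => {n | (Nat.unpair n).1 = k}
  have hPinf : ∀ k, (P k).Infinite := by
    intro k
    refine Set.infinite_of_injective_forall_mem (f := fun i => Nat.pair k i) ?_ ?_
    · intro i j h
      have := congrArg (fun n => (Nat.unpair n).2) h
      simpa using this
    · intro i
      simp [P]
  have hPinj : Function.Injective P := by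
    intro k l h
    obtain ⟨n, hn⟩ := (hPinf k).nonempty
    have h2 : n ∈ P l := h ▸ hn
    exact hn.symm.trans h2
  have h0 : AD (range P) := by
    refine ⟨?_, ?_⟩
    · rintro _ ⟨k, rfl⟩
      exact hPinf k
    · rintro _ ⟨k, rfl⟩ _ ⟨l, rfl⟩ hkl
      have : P k ∩ P l = ∅ := by
        ext n
        simp only [mem_inter_iff, mem_empty_iff_false, iff_false, not_and]
        intro h1 h2
        apply hkl
        have h1' : (Nat.unpair n).1 = k := h1
        have h2' : (Nat.unpair n).1 = l := h2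
        rw [← h1', ← h2']
      rw [this]
      exact finite_empty
  obtain ⟨m, hm, hmax⟩ := zorn_subset_nonempty {𝒜 : Set (Set ℕ) | AD 𝒜} (by
    intro c hc hchain _
    refine ⟨⋃₀ c, ⟨?_, ?_⟩, fun s hs => subset_sUnion_of_mem hs⟩
    · rintro A ⟨𝒜, h𝒜, hA⟩
      exact (hc h𝒜).1 A hA
    · rintro A ⟨𝒜, h𝒜, hA⟩ B ⟨ℬ, hℬ, hB⟩ hAB
      rcases hchain.total h𝒜 hℬ with h | h
      · exact (hc hℬ).2 A (h hA) B hB hAB
      · exact (hc h𝒜).2 A hA B (h hB) hAB) (range P) h0
  refine ⟨m, hmax.prop, (infinite_range_of_injective hPinj).mono hm, fun S hS => ?_⟩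
  by_contra hcon
  push Not at hcon
  have hAD : AD (insert S m) := by
    refine ⟨?_, ?_⟩
    · rintro A (rfl | hA)
      · exact hS
      · exact hmax.prop.1 A hA
    · rintro A (rfl | hA) B (rfl | hB) hAB
      · exact absurd rfl hAB
      · have := hcon B hB
        rw [inter_comm] at this
        simpa using this
      · simpa using hcon A hA
      · exact hmax.prop.2 A hA B hB hAB
  have hSm : S ∈ m := hmax.le_of_ge hAD (subset_insert _ _) (mem_insert _ _)
  have := hcon S hSm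
  rw [inter_self] at this
  exact hS (by simpa using this)

/-! ### The space `X` -/

/-- Underlying set of `X`: a point `inf` and copies of the Mrówka space. -/
inductive X (𝒜 : Set (Set ℕ)) : Type
  | inf : X 𝒜
  | pt (k i : ℕ) : X 𝒜
  | lim (k : ℕ) (A : 𝒜) : X 𝒜

variable {𝒜 : Set (Set ℕ)}

instance : TopologicalSpace (X 𝒜) where
  IsOpen U := (X.inf ∈ U → ∃ m, ∀ k ≥ m, (∀ i, X.pt k i ∈ U) ∧ ∀ A, X.lim k A ∈ U) ∧
    ∀ k (A : 𝒜), X.lim k A ∈ U → ∃ N, ∀ i ∈ A.1, N ≤ i → X.pt k i ∈ U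
  isOpen_univ := ⟨fun _ => ⟨0, fun _ _ => ⟨fun _ => trivial, fun _ => trivial⟩⟩,
    fun _ _ _ => ⟨0, fun _ _ _ => trivial⟩⟩
  isOpen_inter := by
    rintro U V ⟨hU1, hU2⟩ ⟨hV1, hV2⟩
    refine ⟨fun h => ?_, fun k A h => ?_⟩
    · obtain ⟨m, hm⟩ := hU1 h.1
      obtain ⟨l, hl⟩ := hV1 h.2
      refine ⟨max m l, fun k hk => ⟨fun i => ⟨(hm k (le_trans (le_max_left _ _) hk)).1 i,
        (hl k (le_trans (le_max_right _ _) hk)).1 i⟩,
        fun A => ⟨(hm k (le_trans (le_max_left _ _) hk)).2 A,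
        (hl k (le_trans (le_max_right _ _) hk)).2 A⟩⟩⟩
    · obtain ⟨m, hm⟩ := hU2 k A h.1
      obtain ⟨l, hl⟩ := hV2 k A h.2
      exact ⟨max m l, fun i hi hi' => ⟨hm i hi (le_trans (le_max_left _ _) hi'),
        hl i hi (le_trans (le_max_right _ _) hi')⟩⟩
  isOpen_sUnion := by
    intro s hs
    refine ⟨?_, ?_⟩
    · rintro ⟨U, hU, h⟩
      obtain ⟨m, hm⟩ := (hs U hU).1 h
      exact ⟨m, fun k hk => ⟨fun i => ⟨U, hU, (hm k hk).1 i⟩, fun A => ⟨U, hU, (hm k hk).2 A⟩⟩⟩
    · rintro k A ⟨U, hU, h⟩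
      obtain ⟨m, hm⟩ := (hs U hU).2 k A h
      exact ⟨m, fun i hi hi' => ⟨U, hU, hm i hi hi'⟩⟩

lemma isOpen_X {U : Set (X 𝒜)} : IsOpen U ↔
    (X.inf ∈ U → ∃ m, ∀ k ≥ m, (∀ i, X.pt k i ∈ U) ∧ ∀ A, X.lim k A ∈ U) ∧
    ∀ k (A : 𝒜), X.lim k A ∈ U → ∃ N, ∀ i ∈ A.1, N ≤ i → X.pt k i ∈ U := Iff.rfl

/-- Basic neighbourhoods of `inf`. -/
def bInf (m : ℕ) : Set (X 𝒜) := {x | x = X.inf ∨ ∃ k ≥ m, (∃ i, x = X.pt k i) ∨ ∃ A, x = X.lim k A}

/-- Basic neighbourhoods of `lim k A`. -/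
def bLim (k : ℕ) (A : 𝒜) (N : ℕ) : Set (X 𝒜) :=
  {x | x = X.lim k A ∨ ∃ i ∈ A.1, N ≤ i ∧ x = X.pt k i}

lemma isClopen_bInf (m : ℕ) : IsClopen (bInf m : Set (X 𝒜)) := by
  refine ⟨?_, ?_⟩
  · rw [← isOpen_compl_iff, isOpen_X]
    refine ⟨fun h => absurd (Or.inl rfl) h, fun k A h => ⟨0, fun i _ _ hi => h ?_⟩⟩
    rcases hi with hi | ⟨l, hl, ⟨j, hj⟩ | ⟨B, hB⟩⟩
    · cases hi
    · cases hj
      exact Or.inr ⟨_, hl, Or.inr ⟨A, rfl⟩⟩
    · cases hB
  · rw [isOpen_X]
    refine ⟨fun _ => ⟨m, fun k hk => ⟨fun i => Or.inr ⟨k, hk, Or.inl ⟨i, rfl⟩⟩,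
      fun A => Or.inr ⟨k, hk, Or.inr ⟨A, rfl⟩⟩⟩⟩, fun k A h => ⟨0, fun i _ _ => ?_⟩⟩
    rcases h with hi | ⟨l, hl, ⟨j, hj⟩ | ⟨B, hB⟩⟩
    · cases hi
    · cases hj
    · cases hB
      exact Or.inr ⟨_, hl, Or.inl ⟨i, rfl⟩⟩

lemma isClopen_pt (k i : ℕ) : IsClopen ({X.pt k i} : Set (X 𝒜)) := by
  refine ⟨?_, ?_⟩
  · rw [← isOpen_compl_iff, isOpen_X]
    refine ⟨fun _ => ⟨k + 1, fun l hl => ⟨fun j h => ?_, fun A h => ?_⟩⟩,
      fun l A _ => ⟨i + 1, fun j _ hj h => ?_⟩⟩
    · cases h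
      omega
    · cases h
    · cases h
      omega
  · rw [isOpen_X]
    refine ⟨fun h => ?_, fun l A h => ?_⟩
    · cases h
    · cases h

lemma isClopen_bLim (h𝒜 : AD 𝒜) (k : ℕ) (A : 𝒜) (N : ℕ) : IsClopen (bLim k A N) := by
  refine ⟨?_, ?_⟩
  · rw [← isOpen_compl_iff, isOpen_X]
    refine ⟨fun _ => ⟨k + 1, fun l hl => ⟨fun j h => ?_, fun B h => ?_⟩⟩, fun l B hB => ?_⟩
    · rcases h with h | ⟨i, _, _, h⟩
      · cases h
      · cases h
        omega
    · rcases h with h | ⟨i, _, _, h⟩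
      · cases h
        omega
      · cases h
    · by_cases hBA : B = A
      · subst hBA
        have hlk : l ≠ k := fun h => hB (Or.inl (by rw [h]))
        refine ⟨0, fun i _ _ h => ?_⟩
        rcases h with h | ⟨j, _, _, h⟩
        · cases h
        · cases h
          exact hlk rfl
      · have hfin := h𝒜.2 B.1 B.2 A.1 A.2 fun h => hBA (Subtype.ext h)
        obtain ⟨b, hb⟩ := hfin.bddAbove
        refine ⟨b + 1, fun i hi hi' h => ?_⟩
        rcases h with h | ⟨j, hj, _, h⟩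
        · cases h
        · cases h
          have := hb ⟨hi, hj⟩
          omega
  · rw [isOpen_X]
    refine ⟨fun h => ?_, fun l B h => ?_⟩
    · rcases h with h | ⟨j, _, _, h⟩ <;> cases h
    · rcases h with h | ⟨j, _, _, h⟩
      · cases h
        exact ⟨N, fun i hi hi' => Or.inr ⟨i, hi, hi', rfl⟩⟩
      · cases h

lemma exists_clopen_nhds (h𝒜 : AD 𝒜) (x : X 𝒜) (U : Set (X 𝒜)) (hx : x ∈ U) (hU : IsOpen U) :
    ∃ C : Set (X 𝒜), IsClopen C ∧ x ∈ C ∧ C ⊆ U := by
  rcases x with _ | ⟨k, i⟩ | ⟨k, A⟩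
  · obtain ⟨m, hm⟩ := hU.1 hx
    refine ⟨bInf m, isClopen_bInf m, Or.inl rfl, ?_⟩
    rintro _ (rfl | ⟨k, hk, ⟨i, rfl⟩ | ⟨A, rfl⟩⟩)
    · exact hx
    · exact (hm k hk).1 i
    · exact (hm k hk).2 A
  · exact ⟨_, isClopen_pt k i, rfl, singleton_subset_iff.2 hx⟩
  · obtain ⟨N, hN⟩ := hU.2 k A hx
    refine ⟨bLim k A N, isClopen_bLim h𝒜 k A N, Or.inl rfl, ?_⟩
    rintro _ (rfl | ⟨i, hi, hi', rfl⟩)
    · exact hx
    · exact hN i hi hi'

lemma t35_X (h𝒜 : AD 𝒜) : T35Space (X 𝒜) := by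
  have hb : TopologicalSpace.IsTopologicalBasis {s : Set (X 𝒜) | IsClopen s} :=
    TopologicalSpace.isTopologicalBasis_of_isOpen_of_nhds (fun s hs => hs.isOpen)
      fun x U hx hU => by
        obtain ⟨C, h1, h2, h3⟩ := exists_clopen_nhds h𝒜 x U hx hU
        exact ⟨C, h1, h2, h3⟩
  have h1 : CompletelyRegularSpace (X 𝒜) :=
    CompletelyRegularSpace.of_isTopologicalBasis_clopens hb
  have h2 : T1Space (X 𝒜) := by
    constructor
    intro x
    rcases x with _ | ⟨k, i⟩ | ⟨k, A⟩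
    · rw [← isOpen_compl_iff, isOpen_X]
      exact ⟨fun h => absurd rfl h, fun k A _ => ⟨0, fun i _ _ h => by cases h⟩⟩
    · exact (isClopen_pt k i).1
    · rw [← isOpen_compl_iff, isOpen_X]
      refine ⟨fun _ => ⟨k + 1, fun l hl => ⟨fun j h => (by cases h), fun B h => ?_⟩⟩,
        fun l B _ => ⟨0, fun i _ _ h => by cases h⟩⟩
      cases h
      omega
  exact { }

/-- The sets `bInf m` form a neighbourhood base at `inf`. -/
lemma hasBasis_inf : (𝓝 (X.inf : X 𝒜)).HasBasis (fun _ : ℕ => True) bInf := by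
  constructor
  intro U
  rw [mem_nhds_iff]
  constructor
  · rintro ⟨V, hVU, hV, hx⟩
    obtain ⟨m, hm⟩ := hV.1 hx
    refine ⟨m, trivial, ?_⟩
    rintro _ (rfl | ⟨k, hk, ⟨i, rfl⟩ | ⟨A, rfl⟩⟩)
    · exact hVU hx
    · exact hVU ((hm k hk).1 i)
    · exact hVU ((hm k hk).2 A)
  · rintro ⟨m, _, hm⟩
    exact ⟨_, hm, (isClopen_bInf m).2, Or.inl rfl⟩

lemma hasBasis_lim (h𝒜 : AD 𝒜) (k : ℕ) (A : 𝒜) :
    (𝓝 (X.lim k A : X 𝒜)).HasBasis (fun _ : ℕ => True) (bLim k A) := by
  constructor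
  intro U
  rw [mem_nhds_iff]
  constructor
  · rintro ⟨V, hVU, hV, hx⟩
    obtain ⟨N, hN⟩ := hV.2 k A hx
    refine ⟨N, trivial, ?_⟩
    rintro _ (rfl | ⟨i, hi, hi', rfl⟩)
    · exact hVU hx
    · exact hVU (hN i hi hi')
  · rintro ⟨m, _, hm⟩
    exact ⟨_, hm, (isClopen_bLim h𝒜 k A m).2, Or.inl rfl⟩

lemma firstCountable_X (h𝒜 : AD 𝒜) : FirstCountableTopology (X 𝒜) := by
  constructor
  rintro (_ | ⟨k, i⟩ | ⟨k, A⟩)
  · exact hasBasis_inf.isCountablyGenerated
  · have : 𝓝 (X.pt k i : X 𝒜) = pure (X.pt k i) := by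
      refine le_antisymm ?_ (pure_le_nhds _)
      rw [le_pure_iff]
      exact (isClopen_pt k i).2.mem_nhds rfl
    rw [this]
    infer_instance
  · exact (hasBasis_lim h𝒜 k A).isCountablyGenerated

/-! ### The space `Y`: the countable sequential fan -/

/-- Underlying set of `Y`. -/
inductive Y : Type
  | inf : Y
  | pt (n j : ℕ) : Y

instance : TopologicalSpace Y where
  IsOpen V := Y.inf ∈ V → ∀ n, ∃ g, ∀ j ≥ g, Y.pt n j ∈ V
  isOpen_univ := fun _ _ => ⟨0, fun _ _ => trivial⟩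
  isOpen_inter := by
    intro U V hU hV h n
    obtain ⟨m, hm⟩ := hU h.1 n
    obtain ⟨l, hl⟩ := hV h.2 n
    exact ⟨max m l, fun j hj => ⟨hm j (le_trans (le_max_left _ _) hj),
      hl j (le_trans (le_max_right _ _) hj)⟩⟩
  isOpen_sUnion := by
    rintro s hs ⟨U, hU, h⟩ n
    obtain ⟨m, hm⟩ := hs U hU h n
    exact ⟨m, fun j hj => ⟨U, hU, hm j hj⟩⟩

lemma isOpen_Y {V : Set Y} : IsOpen V ↔ (Y.inf ∈ V → ∀ n, ∃ g, ∀ j ≥ g, Y.pt n j ∈ V) := Iff.rfl

instance : Countable Y := by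
  refine Function.Injective.countable (f := fun y : Y => match y with
    | Y.inf => (none : Option (ℕ × ℕ))
    | Y.pt n j => some (n, j)) ?_
  rintro (_ | ⟨n, j⟩) (_ | ⟨m, l⟩) h
  · rfl
  · cases h
  · cases h
  · cases h
    rfl

lemma isOpen_Y_pt (n j : ℕ) : IsOpen ({Y.pt n j} : Set Y) := by
  rw [isOpen_Y]
  intro h
  cases h

instance : T1Space Y := by
  constructor
  rintro (_ | ⟨n, j⟩)
  · rw [← isOpen_compl_iff, isOpen_Y]
    exact fun h => absurd rfl h
  · rw [← isOpen_compl_iff, isOpen_Y]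
    intro _ m
    refine ⟨j + 1, fun l hl h => ?_⟩
    cases h
    omega

/-- Every open set containing `inf` is clopen. -/
lemma isClosed_of_inf_mem {V : Set Y} (hV : Y.inf ∈ V) : IsClosed V := by
  rw [← isOpen_compl_iff, isOpen_Y]
  exact fun h => absurd hV h

instance : CompletelyRegularSpace Y := by
  refine CompletelyRegularSpace.of_isTopologicalBasis_clopens
    (TopologicalSpace.isTopologicalBasis_of_isOpen_of_nhds (fun s hs => hs.isOpen) ?_)
  rintro (_ | ⟨n, j⟩) V hy hV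
  · exact ⟨V, ⟨isClosed_of_inf_mem hy, hV⟩, hy, Subset.rfl⟩
  · exact ⟨{Y.pt n j}, ⟨isClosed_singleton, isOpen_Y_pt n j⟩, rfl, singleton_subset_iff.2 hy⟩

instance : T35Space Y where

/-- Sequences inside one spine converge to `inf`. -/
lemma tendsto_Y (n : ℕ) {φ : ℕ → ℕ} (hφ : Tendsto φ atTop atTop) :
    Tendsto (fun i => Y.pt n (φ i)) atTop (𝓝 Y.inf) := by
  rw [tendsto_nhds]
  intro V hV h
  obtain ⟨g, hg⟩ := hV h n
  filter_upwards [hφ.eventually_ge_atTop g] with i hi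
  exact hg _ hi

instance : FrechetUrysohnSpace Y := by
  constructor
  rintro s (_ | ⟨n, j⟩) ha
  · by_cases hs : Y.inf ∈ s
    · exact ⟨fun _ => Y.inf, fun _ => hs, tendsto_const_nhds⟩
    · have : ∃ n, ∀ g, ∃ j ≥ g, Y.pt n j ∈ s := by
        by_contra hcon
        push Not at hcon
        have hopen : IsOpen sᶜ := by
          rw [isOpen_Y]
          exact fun _ n => hcon n
        rw [mem_closure_iff] at ha
        obtain ⟨y, hy1, hy2⟩ := ha _ hopen hs
        exact hy1 hy2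
      obtain ⟨n, hn⟩ := this
      choose j hj hj' using hn
      exact ⟨fun g => Y.pt n (j g), hj', tendsto_Y n (tendsto_atTop_mono hj tendsto_id)⟩
  · rw [mem_closure_iff] at ha
    obtain ⟨y, hy1, hy2⟩ := ha _ (isOpen_Y_pt n j) rfl
    cases hy1
    exact ⟨fun _ => Y.pt n j, fun _ => hy2, tendsto_const_nhds⟩

/-! ### Convergent sequences of isolated points of `X` -/

/-- Every sequence of isolated points of `X` has a convergent subsequence. -/
lemma exists_subseq (hmad : ∀ S : Set ℕ, S.Infinite → ∃ A ∈ 𝒜, (A ∩ S).Infinite) (k a : ℕ → ℕ) :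
    ∃ (x : X 𝒜) (ψ : ℕ → ℕ), StrictMono ψ ∧
      Tendsto (fun i => X.pt (k (ψ i)) (a (ψ i))) atTop (𝓝 x) := by
  by_cases h1 : ∃ l, ∃ᶠ i in atTop, k i = l
  · obtain ⟨l, hl⟩ := h1
    obtain ⟨φ, hφ, hφl⟩ := extraction_of_frequently_atTop hl
    by_cases h2 : ∃ c, ∃ᶠ i in atTop, a (φ i) = c
    · obtain ⟨c, hc⟩ := h2
      obtain ⟨χ, hχ, hχc⟩ := extraction_of_frequently_atTop hc
      refine ⟨X.pt l c, φ ∘ χ, hφ.comp hχ, ?_⟩
      have : (fun i => (X.pt (k ((φ ∘ χ) i)) (a ((φ ∘ χ) i)) : X 𝒜)) = fun _ => X.pt l c := by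
        funext i
        simp only [Function.comp]
        rw [hφl, hχc]
      rw [this]
      exact tendsto_const_nhds
    · push Not at h2
      have ht : Tendsto (fun i => a (φ i)) atTop atTop := by
        rw [tendsto_atTop]
        intro b
        have : ∀ᶠ i in atTop, ∀ c ∈ Finset.range b, a (φ i) ≠ c :=
          (Finset.eventually_all _).2 fun c _ => by simpa using h2 c
        filter_upwards [this] with i hi
        by_contra hlt
        exact hi _ (Finset.mem_range.2 (not_le.1 hlt)) rfl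
      have hinf : (range fun i => a (φ i)).Infinite := by
        intro hfin
        obtain ⟨b, hb⟩ := hfin.bddAbove
        obtain ⟨i, hi⟩ := (ht.eventually_ge_atTop (b + 1)).exists
        have := hb ⟨i, rfl⟩
        simp only at this
        omega
      obtain ⟨A, hA, hAinf⟩ := hmad _ hinf
      have hfreq : ∃ᶠ i in atTop, a (φ i) ∈ A := by
        rw [frequently_atTop]
        intro n
        by_contra hcon
        push Not at hcon
        apply hAinf
        refine ((finite_Iio n).image fun i => a (φ i)).subset ?_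
        rintro _ ⟨hx, i, rfl⟩
        refine ⟨i, ?_, rfl⟩
        by_contra hi
        exact hcon i (not_lt.1 hi) hx
      obtain ⟨χ, hχ, hχA⟩ := extraction_of_frequently_atTop hfreq
      refine ⟨X.lim l ⟨A, hA⟩, φ ∘ χ, hφ.comp hχ, ?_⟩
      rw [tendsto_nhds]
      intro U hU h
      obtain ⟨N, hN⟩ := hU.2 l ⟨A, hA⟩ h
      filter_upwards [(ht.comp hχ.tendsto_atTop).eventually_ge_atTop N] with i hi
      simp only [Function.comp, mem_preimage]
      rw [hφl]
      exact hN _ (hχA i) hi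
  · push Not at h1
    have ht : Tendsto k atTop atTop := by
      rw [tendsto_atTop]
      intro b
      have : ∀ᶠ i in atTop, ∀ c ∈ Finset.range b, k i ≠ c :=
        (Finset.eventually_all _).2 fun c _ => by simpa using h1 c
      filter_upwards [this] with i hi
      by_contra hlt
      exact hi _ (Finset.mem_range.2 (not_le.1 hlt)) rfl
    refine ⟨X.inf, id, strictMono_id, ?_⟩
    rw [tendsto_nhds]
    intro U hU h
    obtain ⟨m, hm⟩ := hU.1 h
    filter_upwards [ht.eventually_ge_atTop m] with i hi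
    exact (hm _ hi).1 _

/-- The isolated points of `X` are dense. -/
lemma exists_pt_mem (h𝒜 : AD 𝒜) {U : Set (X 𝒜)} (hU : IsOpen U) (hne : U.Nonempty) :
    ∃ k i, X.pt k i ∈ U := by
  obtain ⟨x, hx⟩ := hne
  rcases x with _ | ⟨k, i⟩ | ⟨k, A⟩
  · obtain ⟨m, hm⟩ := hU.1 hx
    exact ⟨m, 0, (hm m le_rfl).1 0⟩
  · exact ⟨k, i, hx⟩
  · obtain ⟨N, hN⟩ := hU.2 k A hx
    obtain ⟨i, hi, hi'⟩ := (h𝒜.1 A.1 A.2).exists_gt N
    exact ⟨k, i, hN i hi hi'.le⟩

/-! ### `X × Y` is a `k_R`-space -/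

/-- A function that is continuous on compact sets is sequentially continuous. -/
lemma seq_of_compact {Z : Type*} [TopologicalSpace Z] {f : Z → ℝ}
    (hf : ∀ K : Set Z, IsCompact K → Continuous (fun z : K => f z))
    {u : ℕ → Z} {z : Z} (hu : Tendsto u atTop (𝓝 z)) : Tendsto (f ∘ u) atTop (𝓝 (f z)) := by
  have hK := hu.isCompact_insert_range
  have hc : ContinuousOn f (insert z (range u)) := by
    rw [continuousOn_iff_continuous_domRestrict]
    exact hf _ hK
  have h1 := hc z (mem_insert _ _)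
  refine h1.tendsto.comp ?_
  rw [tendsto_nhdsWithin_iff]
  exact ⟨hu, Eventually.of_forall fun n => mem_insert_of_mem _ (mem_range_self n)⟩

lemma isKR (h𝒜 : AD 𝒜) (hmad : ∀ S : Set ℕ, S.Infinite → ∃ A ∈ 𝒜, (A ∩ S).Infinite) :
    IsKRSpace (X 𝒜 × Y) := by
  have := t35_X h𝒜
  have := firstCountable_X h𝒜
  refine ⟨inferInstance, fun f hf => ?_⟩
  have hsec : ∀ y : Y, Continuous fun x : X 𝒜 => f (x, y) := by
    intro y
    refine SeqContinuous.continuous fun u x hu => ?_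
    have : Tendsto (fun n => (u n, y)) atTop (𝓝 (x, y)) := hu.prodMk_nhds tendsto_const_nhds
    exact seq_of_compact hf this
  rw [continuous_iff_continuousAt]
  rintro ⟨p, y⟩
  rcases y with _ | ⟨n, j⟩
  · -- the main case
    rw [ContinuousAt, Metric.tendsto_nhds]
    intro ε hε
    set c := f (p, Y.inf) with hc
    -- a clopen neighbourhood of `p` on which `f (·, inf)` is close to `c`
    have hop : IsOpen {x : X 𝒜 | |f (x, Y.inf) - c| < ε / 2} :=
      isOpen_lt (((hsec Y.inf).sub continuous_const).abs) continuous_const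
    obtain ⟨U, hUcl, hpU, hU⟩ := exists_clopen_nhds h𝒜 p _ (by simp [hc, hε]) hop
    have key : ∀ n, ∃ g, ∀ j ≥ g, ∀ x ∈ U, |f (x, Y.pt n j) - c| ≤ ε / 2 := by
      intro n
      by_contra hcon
      push Not at hcon
      have hfreq : ∃ᶠ j in atTop, ∃ k i, X.pt k i ∈ U ∧ ε / 2 < |f (X.pt k i, Y.pt n j) - c| := by
        rw [frequently_atTop]
        intro g
        obtain ⟨j, hj, x, hx, hx'⟩ := hcon g
        refine ⟨j, hj, ?_⟩
        have hop2 : IsOpen (U ∩ {x : X 𝒜 | ε / 2 < |f (x, Y.pt n j) - c|}) :=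
          hUcl.2.inter (isOpen_lt continuous_const (((hsec _).sub continuous_const).abs))
        obtain ⟨k, i, hki⟩ := exists_pt_mem h𝒜 hop2 ⟨x, hx, hx'⟩
        exact ⟨k, i, hki.1, hki.2⟩
      obtain ⟨φ, hφ, hφ'⟩ := extraction_of_frequently_atTop hfreq
      choose k a hka hka' using hφ'
      obtain ⟨x, ψ, hψ, hx⟩ := exists_subseq hmad k a
      have hxU : x ∈ U := hUcl.1.mem_of_tendsto hx (Eventually.of_forall fun i => hka _)
      have h2 : Tendsto (fun i => Y.pt n (φ (ψ i))) atTop (𝓝 Y.inf) :=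
        tendsto_Y n (hφ.comp hψ).tendsto_atTop
      have h3 := seq_of_compact hf (hx.prodMk_nhds h2)
      have h4 : |f (x, Y.inf) - c| < ε / 2 := hU hxU
      have h5 : Tendsto (fun i => |f (X.pt (k (ψ i)) (a (ψ i)), Y.pt n (φ (ψ i))) - c|) atTop
          (𝓝 |f (x, Y.inf) - c|) := (h3.sub_const c).abs
      have h6 := h5.eventually (gt_mem_nhds h4)
      obtain ⟨i, hi⟩ := h6.exists
      exact lt_asymm hi (hka' (ψ i))
    choose g hg using key
    have hV : IsOpen {y : Y | y = Y.inf ∨ ∃ n, ∃ j ≥ g n, y = Y.pt n j} := by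
      rw [isOpen_Y]
      exact fun _ n => ⟨g n, fun j hj => Or.inr ⟨n, j, hj, rfl⟩⟩
    have hmem : U ×ˢ {y : Y | y = Y.inf ∨ ∃ n, ∃ j ≥ g n, y = Y.pt n j} ∈ 𝓝 (p, Y.inf) :=
      prod_mem_nhds (hUcl.2.mem_nhds hpU) (hV.mem_nhds (Or.inl rfl))
    filter_upwards [hmem] with z hz
    obtain ⟨x, y⟩ := z
    obtain ⟨hx, hy⟩ := hz
    simp only at hx hy
    rw [Real.dist_eq]
    rcases hy with rfl | ⟨n, j, hj, rfl⟩
    · have : |f (x, Y.inf) - c| < ε / 2 := hU hx
      linarith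
    · have := hg n j hj x hx
      linarith
  · -- points with isolated second coordinate
    have h1 : Tendsto (fun z : X 𝒜 × Y => f (z.1, Y.pt n j)) (𝓝 (p, Y.pt n j))
        (𝓝 (f (p, Y.pt n j))) :=
      ((hsec (Y.pt n j)).comp continuous_fst).tendsto (p, Y.pt n j)
    refine h1.congr' ?_
    have hmem : (univ : Set (X 𝒜)) ×ˢ ({Y.pt n j} : Set Y) ∈ 𝓝 (p, Y.pt n j) :=
      prod_mem_nhds univ_mem ((isOpen_Y_pt n j).mem_nhds rfl)
    filter_upwards [hmem] with z hz
    have : z.2 = Y.pt n j := hz.2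
    rw [← this]

/-! ### `X × Y` is not a `k`-space -/

/-- A compact subset of `Y` meets only finitely many spines. -/
lemma compact_Y {K : Set Y} (hK : IsCompact K) : ∃ m, ∀ n j, Y.pt n j ∈ K → n < m := by
  by_contra hcon
  push Not at hcon
  have hN : ∀ m, ∃ n ≥ m, ∃ j, Y.pt n j ∈ K := by
    intro m
    obtain ⟨n, j, h1, h2⟩ := hcon m
    exact ⟨n, h2, j, h1⟩
  classical
  -- choose one point in each spine that is met
  let J : ℕ → ℕ := fun n => if h : ∃ j, Y.pt n j ∈ K then h.choose else 0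
  have hJ : ∀ n, (∃ j, Y.pt n j ∈ K) → Y.pt n (J n) ∈ K := by
    intro n h
    have : J n = h.choose := dif_pos h
    rw [this]
    exact h.choose_spec
  let G : ℕ → Set Y := fun m => {y | ∀ n ≥ m, y ≠ Y.pt n (J n)}
  have hGo : ∀ m, IsOpen (G m) := by
    intro m
    rw [isOpen_Y]
    intro _ n
    refine ⟨J n + 1, fun j hj l hl h => ?_⟩
    cases h
    omega
  have hcov : K ⊆ ⋃ m, G m := by
    intro y _
    rw [mem_iUnion]
    rcases y with _ | ⟨n, j⟩
    · exact ⟨0, fun n _ h => by cases h⟩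
    · refine ⟨n + 1, fun l hl h => ?_⟩
      cases h
      omega
  have hdir : Directed (· ⊆ ·) G := by
    refine directed_of_isDirected_le fun m l hml y hy n hn => hy n (le_trans hml hn)
  obtain ⟨m, hm⟩ := hK.elim_directed_cover G hGo hcov hdir
  obtain ⟨n, hn, hj⟩ := hN m
  exact hm (hJ n hj) n hn rfl

lemma not_isK (h𝒜 : AD 𝒜) (hinf : 𝒜.Infinite) : ¬ IsKSpace (X 𝒜 × Y) := by
  haveI := t35_X h𝒜
  intro hk
  have hinj : ∃ e : ℕ → 𝒜, Function.Injective e := by
    haveI := hinf.to_subtype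
    exact ⟨_, (Infinite.natEmbedding 𝒜).injective⟩
  obtain ⟨e, he⟩ := hinj
  let F : Set (X 𝒜 × Y) := {z | ∃ n j, z = (X.lim n (e j), Y.pt n j)}
  have hF : IsClosed F := by
    refine hk F fun K hK => ?_
    obtain ⟨m, hm⟩ := compact_Y (hK.image continuous_snd)
    -- `F ∩ K` is closed in the whole product
    have hclosed : IsClosed (F ∩ {z | ∃ n < m, ∃ j, z.2 = Y.pt n j}) := by
      rw [← isOpen_compl_iff, isOpen_iff_mem_nhds]
      rintro ⟨x, y⟩ hz
      rcases y with _ | ⟨n, j⟩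
      · rcases x with _ | ⟨k, i⟩ | ⟨k, A⟩
        · filter_upwards [prod_mem_nhds ((isClopen_bInf (𝒜 := 𝒜) m).2.mem_nhds (Or.inl rfl))
            (univ_mem : (univ : Set Y) ∈ 𝓝 Y.inf)] with w hw
          rintro ⟨⟨n, j, rfl⟩, n', hn', j', h⟩
          cases h
          rcases hw.1 with h | ⟨l, hl, ⟨i, h⟩ | ⟨A, h⟩⟩
          · cases h
          · cases h
          · cases h
            omega
        · filter_upwards [prod_mem_nhds ((isClopen_pt (𝒜 := 𝒜) k i).2.mem_nhds rfl)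
            (univ_mem : (univ : Set Y) ∈ 𝓝 Y.inf)] with w hw
          rintro ⟨⟨n, j, rfl⟩, -⟩
          have := hw.1
          cases this
        · by_cases hA : ∃ j, e j = A
          · obtain ⟨j, rfl⟩ := hA
            have hV : ({Y.pt k j}ᶜ : Set Y) ∈ 𝓝 Y.inf :=
              isOpen_compl_singleton.mem_nhds (by
                intro h
                cases h)
            filter_upwards [prod_mem_nhds ((isClopen_bLim h𝒜 k (e j) 0).2.mem_nhds (Or.inl rfl))
              hV] with w hw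
            rintro ⟨⟨n, j', rfl⟩, -⟩
            rcases hw.1 with h | ⟨i, _, _, h⟩
            · have h1 : n = k := by injection h
              have h2 : e j' = e j := by injection h
              have h3 := he h2
              subst h1 h3
              exact hw.2 rfl
            · cases h
          · filter_upwards [prod_mem_nhds ((isClopen_bLim h𝒜 k A 0).2.mem_nhds (Or.inl rfl))
              (univ_mem : (univ : Set Y) ∈ 𝓝 Y.inf)] with w hw
            rintro ⟨⟨n, j', rfl⟩, -⟩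
            rcases hw.1 with h | ⟨i, _, _, h⟩
            · have h2 : e j' = A := by injection h
              exact hA ⟨j', h2⟩
            · cases h
      · by_cases hx : x = X.lim n (e j)
        · -- then the point is not in the `m`-part
          have hnm : ¬ n < m := fun h => hz ⟨⟨n, j, by rw [hx]⟩, n, h, j, rfl⟩
          filter_upwards [prod_mem_nhds (univ_mem : (univ : Set (X 𝒜)) ∈ 𝓝 x)
            ((isOpen_Y_pt n j).mem_nhds rfl)] with w hw
          rintro ⟨-, n', hn', j', h⟩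
          have h' : w.2 = Y.pt n j := hw.2
          rw [h'] at h
          cases h
          exact hnm hn'
        · filter_upwards [prod_mem_nhds (isOpen_compl_singleton.mem_nhds hx)
            ((isOpen_Y_pt n j).mem_nhds rfl)] with w hw
          rintro ⟨⟨n', j', rfl⟩, -⟩
          have h' := hw.2
          cases h'
          exact hw.1 rfl
    have heq : ((↑) ⁻¹' F : Set K) = (↑) ⁻¹' (F ∩ {z | ∃ n < m, ∃ j, z.2 = Y.pt n j}) := by
      ext z
      constructor
      · rintro ⟨n, j, hz⟩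
        refine ⟨⟨n, j, hz⟩, n, ?_, j, by rw [hz]⟩
        exact hm n j ⟨z.1, z.2, by rw [hz]⟩
      · rintro ⟨h, -⟩
        exact h
    rw [heq]
    exact hclosed.preimage continuous_subtype_val
  have hmem : (X.inf, Y.inf) ∈ closure F := by
    rw [mem_closure_iff_nhds]
    intro t ht
    rw [nhds_prod_eq, mem_prod_iff] at ht
    obtain ⟨U, hU, V, hV, hUV⟩ := ht
    obtain ⟨m, -, hm⟩ := hasBasis_inf.mem_iff.1 hU
    obtain ⟨W, hWV, hW, hinfW⟩ := mem_nhds_iff.1 hV
    obtain ⟨g, hg⟩ := hW hinfW m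
    refine ⟨(X.lim m (e g), Y.pt m g), hUV ⟨hm ?_, hWV (hg g le_rfl)⟩, m, g, rfl⟩
    exact Or.inr ⟨m, le_rfl, Or.inr ⟨_, rfl⟩⟩
  rw [hF.closure_eq] at hmem
  obtain ⟨n, j, h⟩ := hmem
  have := congrArg Prod.snd h
  cases this

/-- **Answer to Q1 (negative).** There are sequential spaces `X` and `Y` (`X` is first countable,
`Y` is a countable Fréchet–Urysohn space) such that `X × Y` is a `k_R`-space but not a
`k`-space. -/
theorem result : ∃ (X Y : Type) (_ : TopologicalSpace X) (_ : TopologicalSpace Y),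
    SequentialSpace X ∧ SequentialSpace Y ∧
    FirstCountableTopology X ∧ FrechetUrysohnSpace Y ∧ Countable Y ∧
    IsKRSpace (X × Y) ∧ ¬ IsKSpace (X × Y) := by
  obtain ⟨𝒜, h𝒜, hinf, hmad⟩ := exists_mad
  haveI := firstCountable_X h𝒜
  exact ⟨X 𝒜, Y, inferInstance, inferInstance, inferInstance, inferInstance, inferInstance,
    inferInstance, inferInstance, isKR h𝒜 hmad, not_isK h𝒜 hinf⟩

end Pool.Agent.Results.MP_a29c66_gt.NotKSpace
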